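import Pool.Agent.K1H70.KQ.Stm

/-! Project KQ, piece R6: combinatorics of the profile for quivers. -/

set_option autoImplicit false

namespace Pool.Agent.K1H28.KQ

open Pool.Agent.K1H70.KQ

section

variable {I α ρ E : Type}

theorem isP_concat (Q : Qv I α ρ) (w : List α) (b : α) :
    ∀ i j : I, IsP Q (w ++ [b]) i j ↔ i = Q.s b ∧ IsP Q w (Q.t b) j := by
  induction w with
  | nil => intro i j; rfl
  | cons c w ih =>
    intro i j
    show (IsP Q (w ++ [b]) i (Q.s c) ∧ Q.t c = j) ↔ i = Q.s b ∧ (IsP Q w (Q.t b) (Q.s c) ∧ Q.t c = j)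
    rw [ih, and_assoc]

theorem isP_n (Q : Qv I α ρ) (j : ρ) (w : List α) :
    ∀ i i' : I, IsP (Qn Q j) w i i' ↔ IsP Q w i i' := by
  induction w with
  | nil => intro i i'; rfl
  | cons c w ih =>
    intro i i'
    show (IsP (Qn Q j) w i (Q.s c) ∧ Q.t c = i') ↔ (IsP Q w i (Q.s c) ∧ Q.t c = i')
    rw [ih]

theorem sum_concat (ω : α → ℕ) (w : List α) (b : α) :
    ((w ++ [b]).map ω).sum = (w.map ω).sum + ω b := by
  simp

variable {Q : Qv I α ρ} {ω : α → ℕ} {d : ρ → ℕ}

/-- the bijection of the step -/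
def G (j : ρ) (hj : 0 < d j) : Option (TQ (Qn Q j) ω (dnq Q ω d j)) → TQ Q ω d
  | none => ⟨(([], j), Q.ν j), rfl, by simpa using hj⟩
  | some ⟨((w, Sum.inl l), i), h⟩ => ⟨((w, l.1), i), (isP_n Q j w _ _).1 h.1, h.2⟩
  | some ⟨((w, Sum.inr b), i), h⟩ => ⟨((w ++ [b.1], j), i),
      (isP_concat Q w b.1 _ _).2 ⟨b.2.symm, (isP_n Q j w _ _).1 h.1⟩, by
      have h' : (w.map ω).sum < d j - ω b.1 := h.2
      show ((w ++ [b.1]).map ω).sum < d j
      rw [sum_concat]; omega⟩

theorem G_inj (j : ρ) (hj : 0 < d j) : Function.Injective (G (Q := Q) (ω := ω) j hj) := by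
  rintro (_ | ⟨⟨⟨w, l | b⟩, i⟩, h⟩) (_ | ⟨⟨⟨w', l' | b'⟩, i'⟩, h'⟩) hG
  · rfl
  · exact absurd (congrArg (fun t : TQ Q ω d => t.1.1.2) hG).symm l'.2
  · have h1 := congrArg (fun t : TQ Q ω d => t.1.1.1) hG
    exact absurd h1.symm (by simp [G])
  · exact absurd (congrArg (fun t : TQ Q ω d => t.1.1.2) hG) l.2
  · have h1 : w = w' := congrArg (fun t : TQ Q ω d => t.1.1.1) hG
    have h2 : l.1 = l'.1 := congrArg (fun t : TQ Q ω d => t.1.1.2) hG
    have h3 : i = i' := congrArg (fun t : TQ Q ω d => t.1.2) hG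
    obtain rfl := h1
    obtain rfl := Subtype.ext h2
    obtain rfl := h3
    rfl
  · exact absurd (congrArg (fun t : TQ Q ω d => t.1.1.2) hG) l.2
  · have h1 := congrArg (fun t : TQ Q ω d => t.1.1.1) hG
    exact absurd h1 (by simp [G])
  · exact absurd (congrArg (fun t : TQ Q ω d => t.1.1.2) hG).symm l'.2
  · have h1 : w ++ [b.1] = w' ++ [b'.1] := congrArg (fun t : TQ Q ω d => t.1.1.1) hG
    have h3 : i = i' := congrArg (fun t : TQ Q ω d => t.1.2) hG
    obtain ⟨h2, h4⟩ := List.append_inj' h1 rfl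
    obtain rfl := h2
    obtain rfl : b = b' := Subtype.ext (by simpa using h4)
    obtain rfl := h3
    rfl

theorem G_surj (j : ρ) (hj : 0 < d j) : Function.Surjective (G (Q := Q) (ω := ω) j hj) := by
  rintro ⟨⟨⟨w, l⟩, i⟩, h⟩
  by_cases hl : l = j
  · subst hl
    rcases List.eq_nil_or_concat w with rfl | ⟨w, b, rfl⟩
    · refine ⟨none, ?_⟩
      have h1 : Q.ν l = i := h.1
      subst h1
      rfl
    · have h1 : ((w ++ [b]).map ω).sum < d l := by simpa using h.2
      rw [sum_concat] at h1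
      have h2 : IsP Q (w ++ [b]) (Q.ν l) i := by simpa using h.1
      rw [isP_concat] at h2
      refine ⟨some ⟨((w, Sum.inr ⟨b, h2.1.symm⟩), i), (isP_n Q l w _ _).2 h2.2, ?_⟩, ?_⟩
      · show (w.map ω).sum < d l - ω b
        omega
      · refine Subtype.ext ?_
        simp [G]
  · exact ⟨some ⟨((w, Sum.inl ⟨l, hl⟩), i), (isP_n Q j w _ _).2 h.1, h.2⟩, rfl⟩

theorem lev_none (j : ρ) (hj : 0 < d j) : lev (G (Q := Q) (ω := ω) j hj none) = d j := by
  simp [lev, G]

theorem lev_some (j : ρ) (hj : 0 < d j) (t : TQ (Qn Q j) ω (dnq Q ω d j)) :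
    lev (G (Q := Q) (ω := ω) j hj (some t)) = lev t := by
  obtain ⟨⟨⟨w, l | b⟩, i⟩, h⟩ := t
  · rfl
  · show d j - ((w ++ [b.1]).map ω).sum = (d j - ω b.1) - (w.map ω).sum
    rw [sum_concat, add_comm, Nat.sub_sub]

theorem end_some (j : ρ) (hj : 0 < d j) (t : TQ (Qn Q j) ω (dnq Q ω d j)) :
    (G (Q := Q) (ω := ω) j hj (some t)).1.2 = t.1.2 := by
  obtain ⟨⟨⟨w, l | b⟩, i⟩, h⟩ := t <;> rfl

end

/-- existence of the numbering -/
theorem ex_mu {I E : Type} [DecidableEq I] [Fintype E] (vt : E → I) (L : E → ℕ) :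
    ∃ μ : E → ℕ, (∀ x y, vt x = vt y → μ x = μ y → x = y) ∧
      (∀ x, 0 < μ x ∧ μ x ≤ Fintype.card {y // vt y = vt x}) ∧
      ∀ x y, vt x = vt y → μ x ≤ μ y → L x ≤ L y := by
  classical
  set k := Fintype.equivFin E
  set N := Fintype.card E
  set K : E → ℕ := fun y => L y * N + (k y : ℕ) with hK
  have hlt : ∀ x y, L x < L y → K x < K y := by
    intro x y h
    have h1 : (k x : ℕ) < N := (k x).2
    have h2 : (L x + 1) * N ≤ L y * N := Nat.mul_le_mul_right _ h
    simp only [hK]
    nlinarith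
  have hinj : ∀ x y, K x = K y → x = y := by
    intro x y h
    rcases lt_trichotomy (L x) (L y) with h1 | h1 | h1
    · exact absurd h (hlt x y h1).ne
    · simp only [hK, h1] at h
      exact k.injective (Fin.ext (by omega))
    · exact absurd h (hlt y x h1).ne'
  set S : E → Finset E := fun y => Finset.univ.filter fun y' => vt y' = vt y ∧ K y' < K y with hS
  have hμ : ∀ x y, vt x = vt y → K x < K y → (S x).card < (S y).card := by
    intro x y h1 h2
    refine Finset.card_lt_card ((Finset.ssubset_iff_of_subset ?_).2 ⟨x, ?_, ?_⟩)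
    · intro z hz
      simp only [hS, Finset.mem_filter, Finset.mem_univ, true_and] at hz ⊢
      exact ⟨hz.1.trans h1, hz.2.trans h2⟩
    · simp only [hS, Finset.mem_filter, Finset.mem_univ, true_and]
      exact ⟨h1, h2⟩
    · simp only [hS, Finset.mem_filter, Finset.mem_univ, true_and]
      exact fun h => lt_irrefl _ h
  refine ⟨fun y => 1 + (S y).card, ?_, ?_, ?_⟩
  · intro x y h1 h2
    rcases lt_trichotomy (K x) (K y) with h3 | h3 | h3
    · exact absurd h2 (by have := hμ x y h1 h3; simp only; omega)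
    · exact hinj x y h3
    · exact absurd h2 (by have := hμ y x h1.symm h3; simp only; omega)
  · intro x
    refine ⟨by simp only; omega, ?_⟩
    have h1 : (S x) ⊂ Finset.univ.filter fun y => vt y = vt x := by
      refine (Finset.ssubset_iff_of_subset ?_).2 ⟨x, ?_, ?_⟩
      · intro z hz
        simp only [hS, Finset.mem_filter, Finset.mem_univ, true_and] at hz ⊢
        exact hz.1
      · simp only [Finset.mem_filter, Finset.mem_univ, true_and]
      · simp only [hS, Finset.mem_filter, Finset.mem_univ, true_and]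
        exact fun h => lt_irrefl _ h
    have h2 := Finset.card_lt_card h1
    rw [Fintype.card_subtype]
    simp only
    omega
  · intro x y h1 h2
    by_contra h3
    have h4 := hμ y x h1.symm (hlt y x (not_le.1 h3))
    simp only at h2
    omega

/-- **R6 (the profile).** -/
theorem t_PRFq : S_PRFq := by
  intro I α ρ E _ _ _ Q vt ω d e hv
  refine ⟨ex_mu vt fun y => lev (e.symm y), ?_⟩
  rintro μ ⟨hμ1, hμ2, hμ3⟩ ⟨y0⟩
  have hfinT : Finite (TQ Q ω d) := Finite.of_equiv _ e.symm
  have hfin : {l : ρ | 0 < d l}.Finite := by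
    have h1 : Finite {l : ρ | 0 < d l} := by
      refine Finite.of_injective (β := TQ Q ω d)
        (fun l => ⟨(([], l.1), Q.ν l.1), rfl, (l.2 : 0 < d l.1)⟩) ?_
      intro l l' h
      have h2 : l.1 = l'.1 := congrArg (fun t : TQ Q ω d => t.1.1.2) h
      exact Subtype.ext h2
    exact h1
  have hne : {l : ρ | 0 < d l}.Nonempty := by
    refine ⟨(e.symm y0).1.1.2, ?_⟩
    have h1 := (e.symm y0).2.2
    show 0 < d (e.symm y0).1.1.2
    omega
  obtain ⟨j, hj, hmax⟩ := Set.exists_max_image _ d hfin hne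
  have hj0 : 0 < d j := hj
  have hmax' : ∀ l, d l ≤ d j := by
    intro l
    rcases Nat.eq_zero_or_pos (d l) with h1 | h1
    · rw [h1]; exact Nat.zero_le _
    · exact hmax l h1
  set x0 : E := e (G j hj0 none) with hx0
  have hvx0 : vt x0 = Q.ν j := hv _
  have hlx0 : lev (e.symm x0) = d j := by
    rw [hx0, Equiv.symm_apply_apply, lev_none]
  -- the element `e0`
  obtain ⟨e0, he0v, he0μ⟩ : ∃ e0 : E, vt e0 = Q.ν j ∧ μ e0 = Fintype.card {y // vt y = Q.ν j} := by
    set F : Finset E := Finset.univ.filter fun y => vt y = Q.ν j with hF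
    have hFm : ∀ y, y ∈ F ↔ vt y = Q.ν j := by
      intro y; simp [hF]
    have hcard : Fintype.card {y // vt y = Q.ν j} = F.card := by
      rw [Fintype.card_subtype]
    have himg : F.image μ = Finset.Icc 1 F.card := by
      refine Finset.eq_of_subset_of_card_le ?_ ?_
      · intro n hn
        rw [Finset.mem_image] at hn
        obtain ⟨y, hy, rfl⟩ := hn
        rw [hFm] at hy
        have h1 := hμ2 y
        rw [Finset.mem_Icc, ← hcard]
        refine ⟨h1.1, ?_⟩
        have h2 := h1.2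
        simp only [hy] at h2
        exact h2
      · rw [Finset.card_image_of_injOn]
        · simp
        · intro x hx y hy hxy
          have hx' := (hFm x).1 hx
          have hy' := (hFm y).1 hy
          exact hμ1 x y (hx'.trans hy'.symm) hxy
    have hpos : 0 < F.card := Finset.card_pos.2 ⟨x0, (hFm x0).2 hvx0⟩
    have hmem : F.card ∈ F.image μ := by
      rw [himg, Finset.mem_Icc]
      exact ⟨hpos, le_rfl⟩
    rw [Finset.mem_image] at hmem
    obtain ⟨y, hy, hyμ⟩ := hmem
    exact ⟨y, (hFm y).1 hy, hyμ.trans hcard.symm⟩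
  have hle : ∀ τ : TQ Q ω d, lev τ ≤ d j := fun τ => (Nat.sub_le _ _).trans (hmax' _)
  have hle0 : lev (e.symm e0) = d j := by
    refine le_antisymm (hle _) ?_
    rw [← hlx0]
    refine hμ3 x0 e0 (hvx0.trans he0v.symm) ?_
    rw [he0μ]
    have h2 := (hμ2 x0).2
    simp only [hvx0] at h2
    exact h2
  -- the bijection
  set e1 : TQ Q ω d ≃ E := e.trans (Equiv.swap x0 e0) with he1
  have he1v : ∀ τ, vt (e1 τ) = τ.1.2 := by
    intro τ
    have h1 : vt (e1 τ) = vt (e τ) := by
      show vt (Equiv.swap x0 e0 (e τ)) = vt (e τ)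
      rw [Equiv.swap_apply_def]
      split_ifs with h2 h3
      · rw [h2, hvx0, he0v]
      · rw [h3, hvx0, he0v]
      · rfl
    rw [h1, hv]
  have he1l : ∀ τ, lev (e.symm (e1 τ)) = lev τ := by
    intro τ
    show lev (e.symm (Equiv.swap x0 e0 (e τ))) = lev τ
    rw [Equiv.swap_apply_def]
    split_ifs with h2 h3
    · rw [hle0, ← hlx0, ← h2, Equiv.symm_apply_apply]
    · rw [hlx0, ← hle0, ← h3, Equiv.symm_apply_apply]
    · rw [Equiv.symm_apply_apply]
  have he1n : e1 (G j hj0 none) = e0 := by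
    show Equiv.swap x0 e0 (e (G j hj0 none)) = e0
    rw [← hx0, Equiv.swap_apply_left]
  have hbij : Function.Bijective
      (fun τ : TQ (Qn Q j) ω (dnq Q ω d j) => (⟨e1 (G j hj0 (some τ)), by
        intro h
        rw [← he1n] at h
        exact Option.some_ne_none _ (G_inj j hj0 (e1.injective h))⟩ : En e0)) := by
    constructor
    · intro τ τ' h
      have h1 := congrArg Subtype.val h
      exact Option.some_injective _ (G_inj j hj0 (e1.injective h1))
    · rintro ⟨y, hy⟩
      obtain ⟨o, ho⟩ := G_surj (Q := Q) (ω := ω) j hj0 (e1.symm y)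
      rcases o with _ | τ
      · exfalso
        apply hy
        rw [← he1n, ho, Equiv.apply_symm_apply]
      · exact ⟨τ, Subtype.ext (by simp only [ho, Equiv.apply_symm_apply])⟩
  set e' : TQ (Qn Q j) ω (dnq Q ω d j) ≃ En e0 := Equiv.ofBijective _ hbij with he'
  have he'1 : ∀ τ, (e' τ).1 = e1 (G j hj0 (some τ)) := fun τ => rfl
  have he'v : ∀ τ, vn vt e0 (e' τ) = τ.1.2 := by
    intro τ
    show vt (e' τ).1 = τ.1.2
    rw [he'1, he1v, end_some]
  have he'l : ∀ y : En e0, lev (e'.symm y) = lev (e.symm y.1) := by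
    intro y
    obtain ⟨τ, rfl⟩ := e'.surjective y
    rw [Equiv.symm_apply_apply, he'1, he1l, lev_some]
  refine ⟨j, e0, he0v, hj0, hmax', he0μ, hle0, e', he'v, he'l, ?_, ?_, ?_⟩
  · intro x y h1 h2
    exact Subtype.ext (hμ1 x.1 y.1 h1 h2)
  · intro x
    refine ⟨(hμ2 x.1).1, ?_⟩
    have h1 := (hμ2 x.1).2
    have hcard : Fintype.card {y : En e0 // vn vt e0 y = vn vt e0 x} =
        ((Finset.univ.filter fun y : E => vt y = vt x.1).erase e0).card := by
      rw [Fintype.card_subtype]
      refine Finset.card_bij (fun y _ => y.1) ?_ ?_ ?_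
      · intro y hy
        simp only [Finset.mem_filter, Finset.mem_univ, true_and] at hy
        rw [Finset.mem_erase, Finset.mem_filter]
        exact ⟨y.2, Finset.mem_univ _, hy⟩
      · intro y _ y' _ h
        exact Subtype.ext h
      · intro y hy
        rw [Finset.mem_erase, Finset.mem_filter] at hy
        refine ⟨⟨y, hy.1⟩, ?_, rfl⟩
        simp only [Finset.mem_filter, Finset.mem_univ, true_and]
        exact hy.2.2
    show μ x.1 ≤ Fintype.card {y : En e0 // vn vt e0 y = vn vt e0 x}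
    rw [hcard]
    rw [Fintype.card_subtype] at h1
    by_cases hx : vt x.1 = Q.ν j
    · have h2 : e0 ∈ Finset.univ.filter fun y : E => vt y = vt x.1 := by
        simp [he0v, hx]
      rw [Finset.card_erase_of_mem h2]
      have h3 : μ x.1 ≠ (Finset.univ.filter fun y : E => vt y = vt x.1).card := by
        intro h4
        apply x.2
        refine hμ1 x.1 e0 (hx.trans he0v.symm) ?_
        rw [h4, he0μ, Fintype.card_subtype, hx]
      omega
    · have h2 : e0 ∉ Finset.univ.filter fun y : E => vt y = vt x.1 := by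
        simp only [Finset.mem_filter, Finset.mem_univ, true_and]
        intro h3
        exact hx (h3.symm.trans he0v)
      rw [Finset.erase_eq_of_notMem h2]
      exact h1
  · intro x y h1 h2
    show lev (e'.symm x) ≤ lev (e'.symm y)
    rw [he'l, he'l]
    exact hμ3 x.1 y.1 h1 h2

end Pool.Agent.K1H28.KQ
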